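import Pool.Agent.U737.MN.Stm3

/-!
# Project MN, package DegL: the degree of `M(s)/M` (helper858)
-/

set_option autoImplicit false

open Polynomial

namespace Pool.Agent.U858.MN

open Pool.Agent.U737.MN

theorem t_DegL : Pool.Agent.U737.MN.DegL := by
  intro ℓ K Ω _ _ _ _ _ M L _ s hℓ hZ hK
  obtain ⟨hs, hsM, hL⟩ := hK
  obtain ⟨ζ, hζ⟩ := hZ
  have hirr : Irreducible (X ^ ℓ - C (⟨s ^ ℓ, hs⟩ : M)) := by
    apply X_pow_sub_C_irreducible_of_prime hℓ
    intro b hb
    have hb' : (b : Ω) ^ ℓ = s ^ ℓ := congrArg Subtype.val hb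
    have hs0 : s ≠ 0 := fun h => hsM (h ▸ M.zero_mem)
    have hb0 : (b : Ω) ≠ 0 := by
      intro h
      rw [h, zero_pow hℓ.ne_zero] at hb'
      exact pow_ne_zero _ hs0 hb'.symm
    have hζ' : IsPrimitiveRoot (algebraMap K Ω ζ) ℓ :=
      hζ.map_of_injective (algebraMap K Ω).injective
    have : NeZero ℓ := ⟨hℓ.ne_zero⟩
    obtain ⟨i, hi, hi'⟩ := hζ'.eq_pow_of_pow_eq_one (ξ := s / b)
      (by rw [div_pow, hb', div_self (pow_ne_zero _ hs0)])
    apply hsM
    have h1 : s = (algebraMap K Ω ζ) ^ i * b := by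
      rw [hi']
      field_simp
    rw [h1]
    exact M.mul_mem (pow_mem (M.algebraMap_mem ζ) i) b.2
  have hmonic : (X ^ ℓ - C (⟨s ^ ℓ, hs⟩ : M)).Monic := monic_X_pow_sub_C _ hℓ.ne_zero
  have hroot : aeval s (X ^ ℓ - C (⟨s ^ ℓ, hs⟩ : M)) = 0 := by
    rw [map_sub, map_pow, aeval_X, aeval_C]
    exact sub_self _
  have hmin : X ^ ℓ - C (⟨s ^ ℓ, hs⟩ : M) = minpoly M s :=
    minpoly.eq_of_irreducible_of_monic hirr hroot hmonic
  have hint : IsIntegral M s := ⟨_, hmonic, hroot⟩
  have hfr : Module.finrank M (IntermediateField.adjoin M {s}) = ℓ := by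
    rw [IntermediateField.adjoin.finrank hint, ← hmin, natDegree_X_pow_sub_C]
  have hfd : FiniteDimensional M (IntermediateField.adjoin M {s}) :=
    IntermediateField.adjoin.finiteDimensional hint
  have hLeq : L = (IntermediateField.adjoin M {s}).restrictScalars K := by
    rw [hL, IntermediateField.restrictScalars_adjoin, IntermediateField.adjoin_union,
      IntermediateField.adjoin_self]
  rw [hLeq]
  have h1 : FiniteDimensional K (IntermediateField.adjoin M {s}) :=
    FiniteDimensional.trans K M (IntermediateField.adjoin M {s})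
  have h2 := Module.finrank_mul_finrank K M (IntermediateField.adjoin M {s})
  rw [hfr] at h2
  exact ⟨h1, by rw [mul_comm]; exact h2.symm⟩

end Pool.Agent.U858.MN
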